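import Mathlib
import Pool.Agent.CDom.StmtDefs
import Pool.Agent.CDH.Stmt
import Pool.Agent.CDH.StmtB
import Pool.Agent.CDH.FinalB
import Pool.Agent.CDH.ConvB

/-!
Hypergraph dualization has an output-polynomial algorithm if and only if the listing of the minimal
connected dominating sets of the graphs of the class `GraphClass d` has one (`d ≥ 3`).

Definitions: `Pool/Agent/CDom/StmtDefs.lean` (`IsMinCDS`, `encM`, `matG`, `matS`, `Outputs`),
`Pool/Agent/CDH/Stmt.lean` (`IsMinTr`, `encH`) and `Pool/Agent/CDH/StmtB.lean` (`HDOutPoly`,
`MCDSOutPoly`, `GraphClass`).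
-/

set_option autoImplicit false

namespace Pool.Agent.Results.MP_6e88d0_lc.EquivalenceOnClasses

open Pool.Agent.CDom Pool.Agent.CDH

/-- For `d ≥ 3`, HD has an output-polynomial algorithm if and only if MCDS-ENUM has one on the
class of all graphs which have no induced star with `d` leaves, or have tree-independence number
less than `d`, or have a vertex order without back stars with `d` leaves. -/
theorem result (d : ℕ) (hd : 3 ≤ d) :
    HDOutPoly ↔ MCDSOutPoly fun _ G => GraphClass d G :=
  ⟨fun h => mcds_of_hd h d, fun h => hd_of_mcds (fun _ _ hG => graphClass_of_coBip hd hG) h⟩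

end Pool.Agent.Results.MP_6e88d0_lc.EquivalenceOnClasses
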