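import Mathlib
import Pool.Agent.CDom.StmtDefs
import Pool.Agent.CDH.Stmt
import Pool.Agent.CDH.StmtB
import Pool.Agent.CDM.StmtC
import Pool.Agent.CDM.FinalC

/-!
An unconditional output-polynomial algorithm listing the minimal connected dominating sets of
the graphs without a complete minor on `h` branch sets each of which contains a vertex of degree
more than `Δ` (in particular of the graphs without `K_h` minor).

Definitions: `Pool/Agent/CDom/StmtDefs.lean` (`IsMinCDS`, `encM`, `matG`, `matS`, `Outputs`),
`Pool/Agent/CDH/StmtB.lean` (`MCDSOutPoly`) and `Pool/Agent/CDM/StmtC.lean` (`BigMinor`).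
-/

set_option autoImplicit false

namespace Pool.Agent.Results.MP_6e88d0_lc.MinorFreeUnconditional

open Pool.Agent.CDom Pool.Agent.CDH Pool.Agent.CDM

/-- For all `h` and `Δ`, MCDS-ENUM has an output-polynomial algorithm on the class of all graphs
without a complete minor on `h` branch sets each of which contains a vertex of degree more than
`Δ`. -/
theorem result (h Δ : ℕ) : MCDSOutPoly fun _ G => ¬ BigMinor h Δ G :=
  mcds_minor h Δ

end Pool.Agent.Results.MP_6e88d0_lc.MinorFreeUnconditional
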