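import Mathlib
import Pool.Agent.CDom.StmtDefs
import Pool.Agent.CDom.Final

/-!
Minimal connected dominating sets can be listed in output-quasi-polynomial time.

Definitions (`Pool/Agent/CDom/StmtDefs.lean`): `IsMinCDS G D` (minimal connected dominating set),
`encM` (code of a list of rows of bits as a word of bits), `matG` (rows of the adjacency matrix),
`matS` (characteristic vector), `Outputs M i o w w' t` (Mathlib's Turing machine `M`, started with
the word `w`, halts with output `w'` after at most `t` steps).
-/

set_option autoImplicit false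

namespace Pool.Agent.Results.MP_6e88d0_lc.QuasiPolynomial

open Pool.Agent.CDom

/-- (1) There are a Turing machine and a constant `k` such that, given a graph `G` on `n` vertices
and a list `l` of distinct minimal connected dominating sets of `G`, the machine outputs nothing
if `l` contains all of them, and otherwise outputs one more, within
`2 ^ (k * (log2 (n + |l|) + 1) ^ k)` steps.
(2) There are a Turing machine and a constant `k` such that, given a graph `G` on `n` vertices, the
machine outputs the list of all minimal connected dominating sets of `G`, each exactly once,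
within `2 ^ (k * (log2 (n + N) + 1) ^ k)` steps, `N` being their number. -/
theorem result :
    (∃ (M : Turing.FinTM2) (i : M.Γ M.k₀ ≃ Bool) (o : M.Γ M.k₁ ≃ Bool) (k : ℕ),
      ∀ (n : ℕ) (G : SimpleGraph (Fin n)) (l : List (Finset (Fin n))), l.Nodup →
        (∀ D ∈ l, IsMinCDS G D) →
        ((∀ D, IsMinCDS G D → D ∈ l) ∧
          Outputs M i o (encM (matG G ++ l.map matS)) (encM [])
            (2 ^ (k * (Nat.log 2 (n + l.length) + 1) ^ k))) ∨
        ∃ D, IsMinCDS G D ∧ D ∉ l ∧
          Outputs M i o (encM (matG G ++ l.map matS)) (encM [matS D])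
            (2 ^ (k * (Nat.log 2 (n + l.length) + 1) ^ k))) ∧
    (∃ (M : Turing.FinTM2) (i : M.Γ M.k₀ ≃ Bool) (o : M.Γ M.k₁ ≃ Bool) (k : ℕ),
      ∀ (n : ℕ) (G : SimpleGraph (Fin n)), ∃ l : List (Finset (Fin n)), l.Nodup ∧
        (∀ D, D ∈ l ↔ IsMinCDS G D) ∧
        Outputs M i o (encM (matG G)) (encM (l.map matS))
          (2 ^ (k * (Nat.log 2 (n + l.length) + 1) ^ k))) :=
  ⟨incremental, enumeration⟩

end Pool.Agent.Results.MP_6e88d0_lc.QuasiPolynomial
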