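import Mathlib
import Pool.Agent.CDom.StmtDefs
import Pool.Agent.CDH.Stmt
import Pool.Agent.CDH.FinalA

/-!
A sufficient reduction of the listing of minimal connected dominating sets to hypergraph
dualization, for graphs without induced paths on six vertices.

Definitions: `Pool/Agent/CDom/StmtDefs.lean` (`IsMinCDS`, `encM`, `matG`, `matS`) and
`Pool/Agent/CDH/Stmt.lean` (`IsMinTr`, `encH`, `InPoly`, `SuffRed`).
-/

set_option autoImplicit false

namespace Pool.Agent.Results.MP_6e88d0_lc.SufficientReduction

open Pool.Agent.CDom Pool.Agent.CDH

/-- For every `k`, MCDS-ENUM has a sufficient reduction to hypergraph dualization on the class of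
all graphs which have no induced path on six vertices, or have independence number at most `k`, or
in which every minimal connected dominating set `D` contains a connected set `C` with at most `k`
vertices such that every vertex of `D` outside `C` has a neighbour in `C`. -/
theorem result (k : ℕ) : SuffRed fun n G =>
    IsEmpty (SimpleGraph.pathGraph 6 ↪g G) ∨ G.indepNum ≤ k ∨
      ∀ D, IsMinCDS G D → ∃ C ⊆ D, C.card ≤ k ∧ (G.induce (C : Set (Fin n))).Connected ∧
        ∀ v ∈ D, v ∉ C → ∃ u ∈ C, G.Adj u v :=
  mainA k

end Pool.Agent.Results.MP_6e88d0_lc.SufficientReduction
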